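import Pool.Agent.Helper50.Tm.Goals

/-!
Connectedness of the special fibre of the Weil restriction.
-/

open CategoryTheory AlgebraicGeometry Limits TensorProduct MonoidalCategory
open scoped Obj

namespace Pool.Agent.Helper70.Tm

open Pool.Agent.Helper40.Nm (specOver homGroup specialFibre)
open Pool.Agent.Helper50.Tm

section algebra

variable {R S : Type} [CommRing R] [CommRing S] [Algebra R S]

/-- the multiplication map -/
noncomputable def mu (R S A : Type) [CommRing R] [CommRing S] [Algebra R S] [CommRing A]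
    [Algebra R A] [Algebra S A] [IsScalarTower R S A] : S ⊗[R] A →ₐ[S] A :=
  Algebra.TensorProduct.lift (Algebra.ofId S A) (AlgHom.id R A) (fun _ _ => .all _ _)

theorem mu_tmul (A : Type) [CommRing A] [Algebra R A] [Algebra S A] [IsScalarTower R S A]
    (s : S) (a : A) : mu R S A (s ⊗ₜ a) = algebraMap S A s * a := by
  simp [mu, Algebra.ofId_apply]

theorem mu_surjective (A : Type) [CommRing A] [Algebra R A] [Algebra S A]
    [IsScalarTower R S A] : Function.Surjective (mu R S A) := by
  intro a
  exact ⟨1 ⊗ₜ a, by simp [mu_tmul]⟩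

variable [IsLocalRing R] [IsLocalRing S] [IsLocalHom (algebraMap R S)]

/-- the kernel of the multiplication map is nilpotent -/
theorem ker_nil (h1 : ∀ s : S, ∃ r : R, s - algebraMap R S r ∈ IsLocalRing.maximalIdeal S)
    (h2 : ∃ n : ℕ, IsLocalRing.maximalIdeal S ^ n ≤
      (IsLocalRing.maximalIdeal R).map (algebraMap R S))
    (A : Type) [CommRing A] [Algebra R A] [Algebra S A] [IsScalarTower R S A]
    (hA : ∀ s ∈ IsLocalRing.maximalIdeal S, algebraMap S A s = 0) :
    IsNilpotent (RingHom.ker (mu R S A : S ⊗[R] A →+* A)) := by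
  obtain ⟨n, hn⟩ := h2
  set J : Ideal (S ⊗[R] A) :=
    (IsLocalRing.maximalIdeal S).map (algebraMap S (S ⊗[R] A)) with hJ
  have hle : RingHom.ker (mu R S A : S ⊗[R] A →+* A) ≤ J := by
    have key : ∀ x : S ⊗[R] A, ∃ a : A, x - 1 ⊗ₜ a ∈ J := by
      intro x
      induction x using TensorProduct.induction_on with
      | zero => exact ⟨0, by simp⟩
      | tmul s a =>
        obtain ⟨r, hr⟩ := h1 s
        refine ⟨r • a, ?_⟩
        have h3 : (s ⊗ₜ[R] a - 1 ⊗ₜ[R] (r • a) : S ⊗[R] A) =
            algebraMap S (S ⊗[R] A) (s - algebraMap R S r) * (1 ⊗ₜ a) := by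
          rw [Algebra.TensorProduct.algebraMap_apply, Algebra.TensorProduct.tmul_mul_tmul,
            TensorProduct.tmul_smul, TensorProduct.smul_tmul', ← TensorProduct.sub_tmul]
          simp [Algebra.smul_def]
        rw [h3]
        exact J.mul_mem_right _ (Ideal.mem_map_of_mem _ hr)
      | add x y hx hy =>
        obtain ⟨a, ha⟩ := hx
        obtain ⟨b, hb⟩ := hy
        refine ⟨a + b, ?_⟩
        have := J.add_mem ha hb
        rw [TensorProduct.tmul_add]
        convert this using 1
        ring
    have hJker : ∀ y ∈ J, mu R S A y = 0 := by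
      have : J ≤ RingHom.ker (mu R S A : S ⊗[R] A →+* A) := by
        rw [hJ, Ideal.map_le_iff_le_comap]
        intro s hs
        rw [Ideal.mem_comap, RingHom.mem_ker]
        change mu R S A (algebraMap S (S ⊗[R] A) s) = 0
        rw [AlgHom.commutes]
        exact hA s hs
      intro y hy
      exact this hy
    intro x hx
    obtain ⟨a, ha⟩ := key x
    have h4 : mu R S A x = 0 := hx
    have h5 := hJker _ ha
    rw [map_sub, h4, mu_tmul, map_one, one_mul, zero_sub, neg_eq_zero] at h5
    rw [h5, TensorProduct.tmul_zero, sub_zero] at ha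
    exact ha
  refine ⟨n, ?_⟩
  rw [Ideal.zero_eq_bot, eq_bot_iff]
  refine (Ideal.pow_right_mono hle n).trans ?_
  rw [hJ, ← Ideal.map_pow]
  refine (Ideal.map_mono hn).trans ?_
  rw [Ideal.map_map, Ideal.map_le_iff_le_comap]
  intro r hr
  rw [Ideal.mem_comap, Ideal.mem_bot, RingHom.comp_apply,
    Algebra.TensorProduct.algebraMap_apply]
  have h6 : algebraMap R S r ∈ IsLocalRing.maximalIdeal S :=
    ((IsLocalRing.local_hom_TFAE (algebraMap R S)).out 0 2 rfl rfl).mp inferInstance
      (Ideal.mem_map_of_mem _ hr)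
  have h7 : (algebraMap R S r) ⊗ₜ[R] (1 : A) = (1 : S) ⊗ₜ[R] (algebraMap S A (algebraMap R S r)) := by
    rw [← IsScalarTower.algebraMap_apply, Algebra.algebraMap_eq_smul_one,
      Algebra.algebraMap_eq_smul_one, TensorProduct.smul_tmul]
  change (algebraMap R S r) ⊗ₜ[R] (1 : A) = 0
  rw [h7, hA _ h6, TensorProduct.tmul_zero]


/-- the residue fields of `R` and `S` are isomorphic -/
theorem res_bij (h1 : ∀ s : S, ∃ r : R, s - algebraMap R S r ∈ IsLocalRing.maximalIdeal S) :
    Function.Bijective (IsScalarTower.toAlgHom R (IsLocalRing.ResidueField R)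
      (IsLocalRing.ResidueField S)) := by
  refine ⟨(IsScalarTower.toAlgHom R (IsLocalRing.ResidueField R)
      (IsLocalRing.ResidueField S)).toRingHom.injective, ?_⟩
  intro x
  obtain ⟨s, rfl⟩ := IsLocalRing.residue_surjective x
  obtain ⟨r, hr⟩ := h1 s
  refine ⟨IsLocalRing.residue R r, ?_⟩
  rw [← IsLocalRing.residue_eq_zero_iff, map_sub, sub_eq_zero] at hr
  rw [hr]
  exact IsLocalRing.ResidueField.algebraMap_residue r

variable {B W : Type} [CommRing B] [Algebra S B] [CommRing W] [Algebra R W]

/-- the point of the Weil restriction attached to the special fibre -/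
theorem weil_lift [Algebra.FormallySmooth S B] {u : B →ₐ[S] S ⊗[R] W} (hu : IsWeil R S B W u)
    (h1 : ∀ s : S, ∃ r : R, s - algebraMap R S r ∈ IsLocalRing.maximalIdeal S)
    (h2 : ∃ n : ℕ, IsLocalRing.maximalIdeal S ^ n ≤
      (IsLocalRing.maximalIdeal R).map (algebraMap R S))
    (A : Type) [CommRing A] [Algebra R A] [Algebra S A] [IsScalarTower R S A]
    (hA : ∀ s ∈ IsLocalRing.maximalIdeal S, algebraMap S A s = 0) (q : B →ₐ[S] A) :
    ∃ c' : W →ₐ[R] A, ∀ b, mu R S A
      (Algebra.TensorProduct.map (AlgHom.id S S) c' (u b)) = q b := by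
  obtain ⟨c', hc'⟩ := (hu A).2 (Algebra.FormallySmooth.liftOfSurjective q (mu R S A)
    (mu_surjective A) (ker_nil h1 h2 A hA))
  refine ⟨c', fun b => ?_⟩
  have h3 : Algebra.TensorProduct.map (AlgHom.id S S) c' (u b) =
    Algebra.FormallySmooth.liftOfSurjective q (mu R S A)
    (mu_surjective A) (ker_nil h1 h2 A hA) b := DFunLike.congr_fun hc' b
  rw [h3]
  exact Algebra.FormallySmooth.liftOfSurjective_apply _ _ _ _ _

/-- two points of the Weil restriction with values in the residue field with the same
reduction are joined by a line -/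
theorem join [Algebra.FormallySmooth S B] [Module.Finite R S] [Module.Free R S] (hL : LINE)
    {u : B →ₐ[S] S ⊗[R] W} (hu : IsWeil R S B W u)
    (h1 : ∀ s : S, ∃ r : R, s - algebraMap R S r ∈ IsLocalRing.maximalIdeal S)
    (h2 : ∃ n : ℕ, IsLocalRing.maximalIdeal S ^ n ≤
      (IsLocalRing.maximalIdeal R).map (algebraMap R S))
    (f f' : W →ₐ[R] IsLocalRing.ResidueField R)
    (π : S ⊗[R] (IsLocalRing.ResidueField R) →ₐ[S] IsLocalRing.ResidueField S)
    (h : ∀ b, π (Algebra.TensorProduct.map (AlgHom.id S S) f (u b)) =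
      π (Algebra.TensorProduct.map (AlgHom.id S S) f' (u b))) :
    ∃ F : W →ₐ[R] Polynomial (IsLocalRing.ResidueField R),
      ((Polynomial.aeval (0 : IsLocalRing.ResidueField R)).restrictScalars R).comp F = f ∧
      ((Polynomial.aeval (1 : IsLocalRing.ResidueField R)).restrictScalars R).comp F = f' := by
  obtain ⟨F, hF0, hF1⟩ := hL R S B h1 h2 π
    ((Algebra.TensorProduct.map (AlgHom.id S S) f).comp u)
    ((Algebra.TensorProduct.map (AlgHom.id S S) f').comp u) (AlgHom.ext h)
  obtain ⟨F', hF'⟩ := (hu (Polynomial (IsLocalRing.ResidueField R))).2 F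
  have key : ∀ g : Polynomial (IsLocalRing.ResidueField R) →ₐ[R] IsLocalRing.ResidueField R,
      (Algebra.TensorProduct.map (AlgHom.id S S) (g.comp F')).comp u =
        (Algebra.TensorProduct.map (AlgHom.id S S) g).comp F := by
    intro g
    rw [← hF']
    change _ = (Algebra.TensorProduct.map (AlgHom.id S S) g).comp
      ((Algebra.TensorProduct.map (AlgHom.id S S) F').comp u)
    rw [← AlgHom.comp_assoc, ← Algebra.TensorProduct.map_comp, AlgHom.comp_id]
  refine ⟨F', ?_, ?_⟩
  · apply (hu _).1
    change (Algebra.TensorProduct.map (AlgHom.id S S) _).comp u = _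
    rw [key, hF0]
  · apply (hu _).1
    change (Algebra.TensorProduct.map (AlgHom.id S S) _).comp u = _
    rw [key, hF1]

end algebra

section top

/-- the special fibre of `Spec W` -/
def fib (R W : Type) [CommRing R] [IsLocalRing R] [CommRing W] [Algebra R W] :
    Set (PrimeSpectrum W) :=
  {p | PrimeSpectrum.comap (algebraMap R W) p = IsLocalRing.closedPoint R}

/-- all points of an algebra over the residue field lie over the closed point -/
theorem over_closed {R A : Type} [CommRing R] [IsLocalRing R] [CommRing A] [Algebra R A]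
    (hA : ∀ s ∈ IsLocalRing.maximalIdeal R, algebraMap R A s = 0) (p : PrimeSpectrum A) :
    p ∈ fib R A := by
  apply PrimeSpectrum.ext
  symm
  refine (IsLocalRing.maximalIdeal.isMaximal R).eq_of_le
    (PrimeSpectrum.comap (algebraMap R A) p).isPrime.ne_top ?_
  intro s hs
  change algebraMap R A s ∈ p.asIdeal
  rw [hA s hs]
  exact zero_mem _

theorem fib_comap {R A W : Type} [CommRing R] [IsLocalRing R] [CommRing A] [Algebra R A]
    [CommRing W] [Algebra R W] (f : W →ₐ[R] A) {p : PrimeSpectrum A} (hp : p ∈ fib R A) :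
    PrimeSpectrum.comap (f : W →+* A) p ∈ fib R W := by
  unfold fib at *
  rw [Set.mem_ofPred_eq] at *
  rw [← hp, ← PrimeSpectrum.comap_comp_apply]
  congr 1
  exact f.comp_algebraMap

variable {R S B W : Type} [CommRing R] [IsLocalRing R] [CommRing S] [IsLocalRing S]
  [Algebra R S] [IsLocalHom (algebraMap R S)] [CommRing B] [Algebra S B] [Algebra R B]
  [IsScalarTower R S B] [CommRing W] [Algebra R W]

/-- the special fibre of `B` -/
abbrev SF (S B : Type) [CommRing S] [IsLocalRing S] [CommRing B] [Algebra S B] : Type :=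
  B ⧸ (IsLocalRing.maximalIdeal S).map (algebraMap S B)

theorem sf_zero (S B : Type) [CommRing S] [IsLocalRing S] [CommRing B] [Algebra S B] :
    ∀ s ∈ IsLocalRing.maximalIdeal S, algebraMap S (SF S B) s = 0 := by
  intro s hs
  rw [IsScalarTower.algebraMap_apply S B (SF S B), Ideal.Quotient.algebraMap_eq,
    Ideal.Quotient.eq_zero_iff_mem]
  exact Ideal.mem_map_of_mem _ hs

theorem side [Algebra.FormallySmooth S B] [Module.Finite R S] [Module.Free R S] (hL : LINE)
    {u : B →ₐ[S] S ⊗[R] W} (hu : IsWeil R S B W u)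
    (h1 : ∀ s : S, ∃ r : R, s - algebraMap R S r ∈ IsLocalRing.maximalIdeal S)
    (h2 : ∃ n : ℕ, IsLocalRing.maximalIdeal S ^ n ≤
      (IsLocalRing.maximalIdeal R).map (algebraMap R S))
    (c' : W →ₐ[R] SF S B) (hc : ∀ b, mu R S (SF S B)
      (Algebra.TensorProduct.map (AlgHom.id S S) c' (u b)) = Ideal.Quotient.mkₐ S _ b)
    (w : W →ₐ[R] R) :
    ∃ T : Set (PrimeSpectrum W), _root_.IsPreconnected T ∧ T ⊆ fib R W ∧
      PrimeSpectrum.comap (w : W →+* R) (IsLocalRing.closedPoint R) ∈ T ∧
      ∃ a : PrimeSpectrum (SF S B), PrimeSpectrum.comap (Ideal.Quotient.mk _) a =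
        PrimeSpectrum.comap (weilPt u w : B →+* S) (IsLocalRing.closedPoint S) ∧
        PrimeSpectrum.comap (c' : W →+* SF S B) a ∈ T := by
  set ψ := weilPt u w with hψ
  have hψI : ∀ b ∈ (IsLocalRing.maximalIdeal S).map (algebraMap S B),
      ((Algebra.ofId S (IsLocalRing.ResidueField S)).comp ψ) b = 0 := by
    intro b hb
    have : (IsLocalRing.maximalIdeal S).map (algebraMap S B) ≤
        RingHom.ker (((Algebra.ofId S (IsLocalRing.ResidueField S)).comp ψ) :
          B →+* IsLocalRing.ResidueField S) := by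
      rw [Ideal.map_le_iff_le_comap]
      intro s hs
      rw [Ideal.mem_comap, RingHom.mem_ker]
      change ((Algebra.ofId S (IsLocalRing.ResidueField S)).comp ψ) (algebraMap S B s) = 0
      rw [AlgHom.commutes]
      exact (IsLocalRing.residue_eq_zero_iff s).mpr hs
    exact this hb
  set ψ₀ : SF S B →ₐ[S] IsLocalRing.ResidueField S := Ideal.Quotient.liftₐ _ _ hψI with hψ₀
  have hψ₀q : ∀ b, ψ₀ (Ideal.Quotient.mkₐ S _ b) = IsLocalRing.residue S (ψ b) := by
    intro b
    rfl
  set e := AlgEquiv.ofBijective _ (res_bij (R := R) h1) with he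
  have he' : ∀ x, (IsScalarTower.toAlgHom R (IsLocalRing.ResidueField R)
      (IsLocalRing.ResidueField S)) (e.symm x) = x := fun x => e.apply_symm_apply x
  set f₀ : W →ₐ[R] IsLocalRing.ResidueField R := (Algebra.ofId R _).comp w with hf₀
  set f₁ : W →ₐ[R] IsLocalRing.ResidueField R :=
    (e.symm : _ →ₐ[R] _).comp ((ψ₀.restrictScalars R).comp c') with hf₁
  set π : S ⊗[R] (IsLocalRing.ResidueField R) →ₐ[S] IsLocalRing.ResidueField S :=
    Algebra.TensorProduct.lift (Algebra.ofId S _) (IsScalarTower.toAlgHom R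
      (IsLocalRing.ResidueField R) (IsLocalRing.ResidueField S)) (fun _ _ => .all _ _) with hπ
  have hA : ∀ x : S ⊗[R] W, π (Algebra.TensorProduct.map (AlgHom.id S S) f₀ x) =
      IsLocalRing.residue S (Algebra.TensorProduct.rid R S S
        (Algebra.TensorProduct.map (AlgHom.id S S) w x)) := by
    intro x
    induction x using TensorProduct.induction_on with
    | zero => simp
    | tmul s y =>
      rw [Algebra.TensorProduct.map_tmul, Algebra.TensorProduct.map_tmul,
        Algebra.TensorProduct.rid_tmul, hπ, Algebra.TensorProduct.lift_tmul, Algebra.smul_def,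
        map_mul, mul_comm]
      rfl
    | add x y hx hy => simp only [map_add, hx, hy]
  have hB : ∀ x : S ⊗[R] W, π (Algebra.TensorProduct.map (AlgHom.id S S) f₁ x) =
      ψ₀ (mu R S (SF S B) (Algebra.TensorProduct.map (AlgHom.id S S) c' x)) := by
    intro x
    induction x using TensorProduct.induction_on with
    | zero => simp
    | tmul s y =>
      rw [Algebra.TensorProduct.map_tmul, Algebra.TensorProduct.map_tmul, mu_tmul, map_mul,
        AlgHom.commutes, hπ, Algebra.TensorProduct.lift_tmul]
      congr 1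
      exact he' _
    | add x y hx hy => simp only [map_add, hx, hy]
  obtain ⟨F, hF0, hF1⟩ := join hL hu h1 h2 f₀ f₁ π (by
    intro b
    rw [hA, hB, hc, hψ₀q]
    rfl)
  refine ⟨Set.range (PrimeSpectrum.comap (F : W →+* Polynomial (IsLocalRing.ResidueField R))),
    isPreconnected_range (PrimeSpectrum.continuous_comap _), ?_, ?_,
    PrimeSpectrum.comap (ψ₀ : SF S B →+* IsLocalRing.ResidueField S) (IsLocalRing.closedPoint _), ?_, ?_⟩
  · rintro _ ⟨p, rfl⟩
    refine fib_comap F (over_closed ?_ p)
    intro r hr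
    rw [IsScalarTower.algebraMap_apply R (IsLocalRing.ResidueField R)
      (Polynomial (IsLocalRing.ResidueField R))]
    have : algebraMap R (IsLocalRing.ResidueField R) r = 0 :=
      (IsLocalRing.residue_eq_zero_iff r).mpr hr
    rw [this, map_zero]
  · refine ⟨PrimeSpectrum.comap ((Polynomial.aeval (0 : IsLocalRing.ResidueField R) :
      Polynomial (IsLocalRing.ResidueField R) →ₐ[IsLocalRing.ResidueField R] _) :
      Polynomial (IsLocalRing.ResidueField R) →+* IsLocalRing.ResidueField R) (IsLocalRing.closedPoint _), ?_⟩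
    rw [← PrimeSpectrum.comap_comp_apply]
    have h3 : ((Polynomial.aeval (0 : IsLocalRing.ResidueField R) :
      Polynomial (IsLocalRing.ResidueField R) →ₐ[IsLocalRing.ResidueField R] _) :
      Polynomial (IsLocalRing.ResidueField R) →+* IsLocalRing.ResidueField R).comp (F : W →+* Polynomial (IsLocalRing.ResidueField R)) =
      (IsLocalRing.residue R).comp (w : W →+* R) := by
      ext x
      exact DFunLike.congr_fun hF0 x
    rw [h3, PrimeSpectrum.comap_comp_apply]
    congr 1
    exact IsLocalRing.comap_closedPoint _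
  · rw [← PrimeSpectrum.comap_comp_apply]
    have h3 : (ψ₀ : SF S B →+* IsLocalRing.ResidueField S).comp (Ideal.Quotient.mk _) =
      (IsLocalRing.residue S).comp (ψ : B →+* S) := by
      ext x
      exact hψ₀q x
    rw [h3, PrimeSpectrum.comap_comp_apply]
    congr 1
    exact IsLocalRing.comap_closedPoint _
  · refine ⟨PrimeSpectrum.comap ((Polynomial.aeval (1 : IsLocalRing.ResidueField R) :
      Polynomial (IsLocalRing.ResidueField R) →ₐ[IsLocalRing.ResidueField R] _) :
      Polynomial (IsLocalRing.ResidueField R) →+* IsLocalRing.ResidueField R) (IsLocalRing.closedPoint _), ?_⟩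
    rw [← PrimeSpectrum.comap_comp_apply]
    have h3 : ((Polynomial.aeval (1 : IsLocalRing.ResidueField R) :
      Polynomial (IsLocalRing.ResidueField R) →ₐ[IsLocalRing.ResidueField R] _) :
      Polynomial (IsLocalRing.ResidueField R) →+* IsLocalRing.ResidueField R).comp (F : W →+* Polynomial (IsLocalRing.ResidueField R)) =
      (e.symm : IsLocalRing.ResidueField S →+* IsLocalRing.ResidueField R).comp ((ψ₀ : SF S B →+* IsLocalRing.ResidueField S).comp (c' : W →+* SF S B)) := by
      ext x
      exact DFunLike.congr_fun hF1 x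
    rw [h3, PrimeSpectrum.comap_comp_apply, PrimeSpectrum.comap_comp_apply]
    congr 2
    exact Subsingleton.elim _ _

/-- the points of the special fibre of `B` come from `B ⧸ 𝔪 B` -/
theorem fib_sub_range : fib S B ⊆
    Set.range (PrimeSpectrum.comap (Ideal.Quotient.mk
      ((IsLocalRing.maximalIdeal S).map (algebraMap S B)))) := by
  intro p hp
  rw [_root_.range_comap_of_surjective _ _ Ideal.Quotient.mk_surjective, Ideal.mk_ker,
    PrimeSpectrum.mem_zeroLocus]
  change (IsLocalRing.maximalIdeal S).map (algebraMap S B) ≤ p.asIdeal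
  rw [Ideal.map_le_iff_le_comap]
  have h3 : p.asIdeal.comap (algebraMap S B) = IsLocalRing.maximalIdeal S :=
    congrArg PrimeSpectrum.asIdeal hp
  rw [h3]

end top

theorem gCONN (hL : Pool.Agent.Helper50.Tm.LINE) : Pool.Agent.Helper50.Tm.CONN := by
  intro R S B W _ _ _ _ _ _ _ _ _ _ _ _ _ u hu h1 h2 w w' hS
  let _ : Algebra R B := ((algebraMap S B).comp (algebraMap R S)).toAlgebra
  have : IsScalarTower R S B := .of_algebraMap_eq (fun _ => rfl)
  have hS' : PrimeSpectrum.comap (weilPt u w' : B →+* S) (IsLocalRing.closedPoint S) ∈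
      connectedComponentIn (fib S B)
        (PrimeSpectrum.comap (weilPt u w : B →+* S) (IsLocalRing.closedPoint S)) := hS
  suffices hgoal : PrimeSpectrum.comap (w' : W →+* R) (IsLocalRing.closedPoint R) ∈
      connectedComponentIn (fib R W)
        (PrimeSpectrum.comap (w : W →+* R) (IsLocalRing.closedPoint R)) from hgoal
  obtain ⟨c', hc⟩ := weil_lift hu h1 h2 (SF S B) (sf_zero S B) (Ideal.Quotient.mkₐ S _)
  obtain ⟨T, hT, hTF, hwT, a, ha, haT⟩ := side hL hu h1 h2 c' hc w
  obtain ⟨T', hT', hTF', hwT', a', ha', haT'⟩ := side hL hu h1 h2 c' hc w'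
  set q : B →+* SF S B := Ideal.Quotient.mk _ with hq
  set D := connectedComponentIn (fib S B)
        (PrimeSpectrum.comap (weilPt u w : B →+* S) (IsLocalRing.closedPoint S)) with hD
  have hDF : D ⊆ fib S B := connectedComponentIn_subset _ _
  have hx : PrimeSpectrum.comap (weilPt u w : B →+* S) (IsLocalRing.closedPoint S) ∈ fib S B := by
    refine fib_comap (weilPt u w) ?_
    unfold fib
    rw [Set.mem_ofPred_eq, Algebra.algebraMap_self]
    exact PrimeSpectrum.ext (Ideal.comap_id _)
  have hxD : PrimeSpectrum.comap (weilPt u w : B →+* S) (IsLocalRing.closedPoint S) ∈ D :=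
    mem_connectedComponentIn hx
  have hDpre : _root_.IsPreconnected D := isPreconnected_connectedComponentIn
  have hind : Topology.IsInducing (PrimeSpectrum.comap q) :=
    (PrimeSpectrum.isClosedEmbedding_comap_of_surjective _ q
      Ideal.Quotient.mk_surjective).isInducing
  have himg : PrimeSpectrum.comap q '' (PrimeSpectrum.comap q ⁻¹' D) = D :=
    Set.image_preimage_eq_of_subset (hDF.trans fib_sub_range)
  have hA : _root_.IsPreconnected (PrimeSpectrum.comap q ⁻¹' D) := by
    rw [← hind.isPreconnected_image, himg]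
    exact hDpre
  have hW : _root_.IsPreconnected
      (PrimeSpectrum.comap (c' : W →+* SF S B) '' (PrimeSpectrum.comap q ⁻¹' D)) :=
    hA.image _ (PrimeSpectrum.continuous_comap _).continuousOn
  have hWF : PrimeSpectrum.comap (c' : W →+* SF S B) '' (PrimeSpectrum.comap q ⁻¹' D) ⊆
      fib R W := by
    rintro _ ⟨p, -, rfl⟩
    refine fib_comap c' (over_closed ?_ p)
    intro r hr
    rw [IsScalarTower.algebraMap_apply R S (SF S B)]
    exact sf_zero S B _ (((IsLocalRing.local_hom_TFAE (algebraMap R S)).out 0 2 rfl rfl).mp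
      inferInstance (Ideal.mem_map_of_mem _ hr))
  have haD : a ∈ PrimeSpectrum.comap q ⁻¹' D := by
    rw [Set.mem_preimage, ha]
    exact hxD
  have haD' : a' ∈ PrimeSpectrum.comap q ⁻¹' D := by
    rw [Set.mem_preimage, ha']
    exact hS'
  have h3 := IsPreconnected.union _ haT (Set.mem_image_of_mem _ haD) hT hW
  have h4 := IsPreconnected.union (PrimeSpectrum.comap (c' : W →+* SF S B) a')
    (Set.mem_union_right _ (Set.mem_image_of_mem _ haD')) haT' h3 hT'
  exact h4.subset_connectedComponentIn (Or.inl (Or.inl hwT))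
    (Set.union_subset (Set.union_subset hTF hWF) hTF') (Or.inr hwT')

end Pool.Agent.Helper70.Tm
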